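import Pool.Agent.Lib.MP_be9f18_nt.Own
import Pool.Agent.Lib.MP_be9f18_nt.TFinal
import Pool.Agent.Lib.MP_be9f18_nt.MGlue
import Pool.Agent.Lib.MP_be9f18_nt.TGlue

/-!
The two-dimensional simultaneous Diophantine approximation constant is `2/7`, in explicit form.
-/

set_option autoImplicit false

namespace Pool.Agent.Results.MP_be9f18_nt.GammaTwo

/-- `γ₂ = 2/7`: for all real `ξ₁, ξ₂` and every `c > 2/7` the system `q |q ξᵢ - pᵢ|² < c`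
(`i = 1, 2`) has infinitely many integer solutions `(p₁, p₂, q)` with `q > 0`, and for every
`c < 2/7` there are `ξ₁, ξ₂`, linearly independent with `1` over the rationals, for which it has
only finitely many. -/
theorem result :
    (∀ ξ₁ ξ₂ c : ℝ, 2 / 7 < c →
      {x : ℤ × ℤ × ℤ | 0 < x.2.2 ∧
        (x.2.2 : ℝ) * |(x.2.2 : ℝ) * ξ₁ - (x.1 : ℝ)| ^ 2 < c ∧
        (x.2.2 : ℝ) * |(x.2.2 : ℝ) * ξ₂ - (x.2.1 : ℝ)| ^ 2 < c}.Infinite) ∧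
    (∀ c : ℝ, c < 2 / 7 → ∃ ξ₁ ξ₂ : ℝ,
      (∀ k l m : ℤ, (k : ℝ) + l * ξ₁ + m * ξ₂ = 0 → k = 0 ∧ l = 0 ∧ m = 0) ∧
      {x : ℤ × ℤ × ℤ | 0 < x.2.2 ∧
        (x.2.2 : ℝ) * |(x.2.2 : ℝ) * ξ₁ - (x.1 : ℝ)| ^ 2 < c ∧
        (x.2.2 : ℝ) * |(x.2.2 : ℝ) * ξ₂ - (x.2.1 : ℝ)| ^ 2 < c}.Finite) :=
  ⟨fun ξ₁ ξ₂ c hc => Pool.Agent.Lib.MP_be9f18_nt.sol_infinite
      Pool.Agent.Lib.MP_be9f18_nt.mainStatement
      (Pool.Agent.Lib.MP_be9f18_nt.iso_of_roots Pool.Agent.Lib.MP_be9f18_nt.rootII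
        Pool.Agent.Lib.MP_be9f18_nt.rootIII) ξ₁ ξ₂ c hc,
    fun c hc => Pool.Agent.Lib.MP_be9f18_nt.sol_finite c hc⟩

end Pool.Agent.Results.MP_be9f18_nt.GammaTwo
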